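import Mathlib

set_option autoImplicit false

namespace Pool.Agent.H96.TSC

open Matrix NormedSpace

section
attribute [local instance] Matrix.linftyOpNormedRing Matrix.linftyOpNormedAlgebra

lemma hasDerivAt_entry {S : Type*} [Fintype S] [DecidableEq S] (A : Matrix S S ℝ) (x y : S) (t : ℝ) :
    HasDerivAt (fun u : ℝ => (exp (u • A)) x y) ((exp (t • A) * A) x y) t := by
  have h := hasDerivAt_exp_smul_const (𝕂 := ℝ) A t
  have h2 := ((Matrix.entryLinearMap ℝ ℝ x y).toContinuousLinearMap.hasFDerivAt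
    (x := exp (t • A))).comp_hasDerivAt t h
  exact h2

end

lemma exp_unique {S : Type*} [Fintype S] [DecidableEq S] (Q : Matrix S S ℝ) (F : ℝ → Matrix S S ℝ)
    (h0 : F 0 = 1) (h : ∀ t x y, HasDerivAt (fun s => F s x y) ((Q * F t) x y) t) (t : ℝ) :
    exp (t • Q) = F t := by
  have hG : ∀ (t : ℝ) (x y : S), HasDerivAt (fun u => ∑ z, (exp (u • (-Q))) x z * F u z y)
      0 t := by
    intro t x y
    have h1 : HasDerivAt (fun u => ∑ z, (exp (u • (-Q))) x z * F u z y)
        (∑ z, ((exp (t • (-Q)) * (-Q)) x z * F t z y + (exp (t • (-Q))) x z * (Q * F t) z y)) t := by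
      apply HasDerivAt.fun_sum
      intro z _
      exact (hasDerivAt_entry (-Q) x z t).mul (h t z y)
    have h2 : (∑ z, ((exp (t • (-Q)) * (-Q)) x z * F t z y + (exp (t • (-Q))) x z *
        (Q * F t) z y)) = ((exp (t • (-Q)) * (-Q)) * F t + exp (t • (-Q)) * (Q * F t)) x y := by
      rw [Finset.sum_add_distrib]
      simp [Matrix.add_apply, Matrix.mul_apply]
    have h3 : (exp (t • (-Q)) * (-Q)) * F t + exp (t • (-Q)) * (Q * F t) = 0 := by
      rw [Matrix.mul_assoc, ← Matrix.mul_add, Matrix.neg_mul, neg_add_cancel, Matrix.mul_zero]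
    rw [h2, h3] at h1
    exact h1
  have hconst : exp (t • (-Q)) * F t = 1 := by
    ext x y
    have h1 := is_const_of_deriv_eq_zero (f := fun u => ∑ z, (exp (u • (-Q))) x z * F u z y)
      (fun u => (hG u x y).differentiableAt) (fun u => (hG u x y).deriv) t 0
    have e0 : exp ((0:ℝ) • (-Q)) = (1 : Matrix S S ℝ) := by rw [zero_smul, exp_zero]
    calc (exp (t • (-Q)) * F t) x y = ∑ z, (exp (t • (-Q))) x z * F t z y := Matrix.mul_apply
      _ = ∑ z, (exp ((0:ℝ) • (-Q))) x z * F 0 z y := h1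
      _ = (exp ((0:ℝ) • (-Q)) * F 0) x y := Matrix.mul_apply.symm
      _ = (1 : Matrix S S ℝ) x y := by rw [e0, h0, Matrix.one_mul]
  have h4 : exp (t • Q) * exp (t • (-Q)) = 1 := by
    rw [← Matrix.exp_add_of_commute]
    · rw [smul_neg, add_neg_cancel, exp_zero]
    · rw [smul_neg]
      exact (Commute.refl _).neg_right
  calc exp (t • Q) = exp (t • Q) * (exp (t • (-Q)) * F t) := by rw [hconst, Matrix.mul_one]
    _ = F t := by rw [← Matrix.mul_assoc, h4, Matrix.one_mul]

end Pool.Agent.H96.TSC
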