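import Mathlib
import Pool.Agent.H96.TSC.Exp

set_option autoImplicit false
set_option linter.unusedSectionVars false

namespace Pool.Agent.H96.TSC

open Finset Real

/-- the states: words of length `N` over the alphabet `ℤ/M` -/
abbrev St (N M : ℕ) : Type := Fin N → ZMod M

section
variable (N M : ℕ) [NeZero M]

/-- generator: every letter is refreshed at rate `1`, the whole word at rate `r` -/
noncomputable def gen (r : ℝ) : Matrix (St N M) (St N M) ℝ := fun x y =>
  (∑ j, ∑ a : ZMod M, (1 / (M : ℝ)) * (if Function.update x j a = y then 1 else 0)) -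
    (if x = y then (N : ℝ) else 0) + r * (1 / (M : ℝ) ^ N - if x = y then 1 else 0)

/-- one letter kernel -/
noncomputable def pk (t : ℝ) (a b : ZMod M) : ℝ :=
  exp (-t) * (if a = b then 1 else 0) + (1 - exp (-t)) / M

/-- the transition kernel -/
noncomputable def ker (r t : ℝ) : Matrix (St N M) (St N M) ℝ := fun x y =>
  exp (-(r * t)) * (∏ j, pk M t (x j) (y j)) + (1 - exp (-(r * t))) / (M : ℝ) ^ N

variable {N M}

lemma Mpos : (0 : ℝ) < M := by
  have := NeZero.pos M
  exact_mod_cast this

lemma sum_pk_left (t : ℝ) (b : ZMod M) : ∑ a, pk M t a b = 1 := by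
  have hM : (M : ℝ) ≠ 0 := (Mpos (M := M)).ne'
  unfold pk
  rw [sum_add_distrib, ← mul_sum, sum_ite_eq', if_pos (mem_univ _), sum_const, card_univ,
    ZMod.card, nsmul_eq_mul]
  field_simp
  ring

lemma sum_pk_right (t : ℝ) (a : ZMod M) : ∑ b, pk M t a b = 1 := by
  have hM : (M : ℝ) ≠ 0 := (Mpos (M := M)).ne'
  unfold pk
  rw [sum_add_distrib, ← mul_sum, sum_ite_eq, if_pos (mem_univ _), sum_const, card_univ,
    ZMod.card, nsmul_eq_mul]
  field_simp
  ring

lemma card_St : Fintype.card (St N M) = M ^ N := by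
  rw [Fintype.card_fun, ZMod.card, Fintype.card_fin]

lemma sum_prod_St (f : Fin N → ZMod M → ℝ) : ∑ x : St N M, ∏ j, f j (x j) = ∏ j, ∑ a, f j a := by
  rw [Finset.prod_univ_sum]
  simp

lemma gen_mul (r : ℝ) (F : St N M → ℝ) (x : St N M) :
    ∑ z, gen N M r x z * F z = (∑ j, ∑ a : ZMod M, (1 / (M : ℝ)) * F (Function.update x j a)) -
      N * F x + r * ((1 / (M : ℝ) ^ N) * (∑ z, F z) - F x) := by
  have e : ∀ z, gen N M r x z * F z =
      (∑ j, ∑ a : ZMod M, (1 / (M : ℝ)) * (if Function.update x j a = z then F z else 0)) -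
      (if x = z then (N : ℝ) * F z else 0) + r * ((1 / (M : ℝ) ^ N) * F z -
        if x = z then F z else 0) := by
    intro z
    unfold gen
    rw [add_mul, sub_mul, sum_mul]
    congr 1
    · congr 1
      · refine sum_congr rfl fun j _ => ?_
        rw [sum_mul]
        refine sum_congr rfl fun a _ => ?_
        split_ifs <;> ring
      · split_ifs <;> ring
    · split_ifs <;> ring
  simp_rw [e]
  rw [sum_add_distrib, sum_sub_distrib, ← mul_sum, sum_sub_distrib, ← mul_sum]
  congr 1
  · congr 1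
    · rw [sum_comm]
      refine sum_congr rfl fun j _ => ?_
      rw [sum_comm]
      refine sum_congr rfl fun a _ => ?_
      rw [← mul_sum, sum_ite_eq, if_pos (mem_univ _)]
    · rw [sum_ite_eq, if_pos (mem_univ _)]
  · rw [sum_ite_eq, if_pos (mem_univ _)]

lemma sum_ker_left (r t : ℝ) (y : St N M) : ∑ x, ker N M r t x y = 1 := by
  have hM : (M : ℝ) ^ N ≠ 0 := pow_ne_zero _ (Mpos (M := M)).ne'
  unfold ker
  rw [sum_add_distrib, ← mul_sum, sum_prod_St (fun j a => pk M t a (y j))]
  simp_rw [sum_pk_left]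
  rw [prod_const_one, sum_const, card_univ, card_St, nsmul_eq_mul]
  push_cast
  field_simp
  ring

lemma sum_ker_right (r t : ℝ) (x : St N M) : ∑ y, ker N M r t x y = 1 := by
  have hM : (M : ℝ) ^ N ≠ 0 := pow_ne_zero _ (Mpos (M := M)).ne'
  unfold ker
  rw [sum_add_distrib, ← mul_sum, sum_prod_St (fun j a => pk M t (x j) a)]
  simp_rw [sum_pk_right]
  rw [prod_const_one, sum_const, card_univ, card_St, nsmul_eq_mul]
  push_cast
  field_simp
  ring

lemma prod_update (t : ℝ) (x y : St N M) (j : Fin N) (a : ZMod M) :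
    ∏ k, pk M t (Function.update x j a k) (y k) =
      pk M t a (y j) * ∏ k ∈ univ.erase j, pk M t (x k) (y k) := by
  rw [← mul_prod_erase univ _ (mem_univ j), Function.update_self]
  congr 1
  refine prod_congr rfl fun k hk => ?_
  rw [Function.update_of_ne (ne_of_mem_erase hk)]

lemma hasDerivAt_pk (t : ℝ) (a b : ZMod M) :
    HasDerivAt (fun s => pk M s a b) (1 / (M : ℝ) - pk M t a b) t := by
  have h1 : HasDerivAt (fun s : ℝ => exp (-s)) (-exp (-t)) t := by
    have := (hasDerivAt_neg t).exp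
    simpa using this
  have h2 := (h1.mul_const (if a = b then (1 : ℝ) else 0)).add
    ((h1.const_sub 1).div_const (M : ℝ))
  have e : -exp (-t) * (if a = b then (1 : ℝ) else 0) + -(-exp (-t)) / (M : ℝ) =
      1 / (M : ℝ) - pk M t a b := by
    unfold pk
    ring
  rw [e] at h2
  exact h2

lemma hasDerivAt_ker (r t : ℝ) (x y : St N M) :
    HasDerivAt (fun s => ker N M r s x y) ((gen N M r * ker N M r t) x y) t := by
  have h1 : HasDerivAt (fun s : ℝ => exp (-(r * s))) (-r * exp (-(r * t))) t := by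
    have h0 := ((hasDerivAt_id t).const_mul (-r)).exp
    simp only [id, mul_one] at h0
    have e3 : (fun s : ℝ => exp (-(r * s))) = fun s : ℝ => exp (-r * s) := by
      funext s; rw [neg_mul]
    rw [e3]
    have e4 : -r * exp (-(r * t)) = exp (-r * t) * -r := by rw [neg_mul r t]; ring
    rw [e4]
    exact h0
  have h2 : HasDerivAt (fun s => ∏ j, pk M s (x j) (y j))
      (∑ j, (∏ k ∈ univ.erase j, pk M t (x k) (y k)) * (1 / (M : ℝ) - pk M t (x j) (y j))) t := by
    have := HasDerivAt.fun_finsetProd (u := univ) (f := fun j s => pk M s (x j) (y j))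
      (f' := fun j => 1 / (M : ℝ) - pk M t (x j) (y j)) (x := t)
      (fun j _ => hasDerivAt_pk t (x j) (y j))
    simpa [smul_eq_mul] using this
  have h3 := (h1.mul h2).add ((h1.const_sub 1).div_const ((M : ℝ) ^ N))
  have e : -r * exp (-(r * t)) * (∏ j, pk M t (x j) (y j)) + exp (-(r * t)) *
      (∑ j, (∏ k ∈ univ.erase j, pk M t (x k) (y k)) * (1 / (M : ℝ) - pk M t (x j) (y j))) +
      -(-r * exp (-(r * t))) / (M : ℝ) ^ N = (gen N M r * ker N M r t) x y := by
    rw [Matrix.mul_apply, gen_mul r (fun z => ker N M r t z y) x, sum_ker_left]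
    have e1 : ∀ j, ∑ a : ZMod M, (1 / (M : ℝ)) * ker N M r t (Function.update x j a) y =
        exp (-(r * t)) * (1 / (M : ℝ)) * (∏ k ∈ univ.erase j, pk M t (x k) (y k)) +
          (1 - exp (-(r * t))) / (M : ℝ) ^ N := by
      intro j
      have hM : (M : ℝ) ≠ 0 := (Mpos (M := M)).ne'
      unfold ker
      simp_rw [prod_update]
      rw [← mul_sum, sum_add_distrib, ← mul_sum, ← sum_mul, sum_pk_left, sum_const, card_univ,
        ZMod.card, nsmul_eq_mul]
      field_simp
    have e2 : ∀ j : Fin N, (∏ k ∈ univ.erase j, pk M t (x k) (y k)) *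
        (1 / (M : ℝ) - pk M t (x j) (y j)) =
        (1 / (M : ℝ)) * (∏ k ∈ univ.erase j, pk M t (x k) (y k)) -
          ∏ k, pk M t (x k) (y k) := by
      intro j
      rw [← mul_prod_erase univ (fun k => pk M t (x k) (y k)) (mem_univ j)]
      ring
    simp_rw [e1, e2]
    rw [sum_sub_distrib, sum_add_distrib, sum_const, sum_const, card_univ, Fintype.card_fin,
      nsmul_eq_mul, nsmul_eq_mul, ← mul_sum, ← mul_sum]
    unfold ker
    ring
  rw [← e]
  exact h3

lemma ker_zero (r : ℝ) : ker N M r 0 = 1 := by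
  ext x y
  unfold ker pk
  simp only [mul_zero, neg_zero, exp_zero, one_mul, sub_self, zero_div, add_zero]
  rw [Matrix.one_apply]
  by_cases h : x = y
  · subst h; simp
  · rw [if_neg h]
    obtain ⟨j, hj⟩ := Function.ne_iff.mp h
    exact prod_eq_zero (mem_univ j) (if_neg hj)

lemma exp_gen (r t : ℝ) : NormedSpace.exp (t • gen N M r) = ker N M r t :=
  exp_unique (gen N M r) (fun t => ker N M r t) (ker_zero r)
    (fun t x y => hasDerivAt_ker r t x y) t

end

end Pool.Agent.H96.TSC
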