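import Mathlib
import Pool.Agent.H96.TSC.Chain

set_option autoImplicit false
set_option linter.unusedSectionVars false

namespace Pool.Agent.H96.TSC

open Finset

section
variable {N M : ℕ} [NeZero M]

/-- averaging over the letter `j` -/
noncomputable def av (j : Fin N) (f : St N M → ℂ) : St N M → ℂ := fun x =>
  ∑ a : ZMod M, (1 / (M : ℂ)) * f (Function.update x j a)

lemma Mc : (M : ℂ) ≠ 0 := by
  have := NeZero.ne M
  exact_mod_cast this

lemma av_idem (j : Fin N) (f : St N M → ℂ) : av j (av j f) = av j f := by
  funext x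
  unfold av
  simp only [Function.update_idem]
  rw [sum_const, card_univ, ZMod.card, nsmul_eq_mul]
  have := Mc (M := M)
  field_simp

lemma av_comm (i j : Fin N) (f : St N M → ℂ) : av i (av j f) = av j (av i f) := by
  by_cases h : i = j
  · rw [h]
  funext x
  unfold av
  simp only [mul_sum]
  rw [sum_comm]
  refine sum_congr rfl fun b _ => sum_congr rfl fun a _ => ?_
  rw [Function.update_comm h]

lemma av_sum (j : Fin N) (f : St N M → ℂ) : ∑ x, av j f x = ∑ x, f x := by
  unfold av
  rw [sum_comm]
  have hM := Mc (M := M)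
  -- for fixed a, the sum over x of f (update x j a)
  have key : ∑ a : ZMod M, ∑ x : St N M, f (Function.update x j a) =
      (M : ℂ) * ∑ x, f x := by
    rw [← sum_product', univ_product_univ]
    have h2 : (M : ℂ) * ∑ x : St N M, f x = ∑ p : ZMod M × St N M, f p.2 := by
      rw [Fintype.sum_prod_type]
      simp only
      rw [sum_const, card_univ, ZMod.card, nsmul_eq_mul]
    rw [h2]
    -- involution (a, x) ↦ (x j, update x j a)
    have hinv : Function.Involutive (fun p : ZMod M × St N M =>
        ((p.2 j, Function.update p.2 j p.1) : ZMod M × St N M)) := by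
      intro p
      simp
    exact Fintype.sum_equiv hinv.toPerm _ _ fun p => rfl
  simp_rw [← mul_sum]
  rw [key]
  field_simp

lemma av_smul (j : Fin N) (c : ℂ) (f : St N M → ℂ) : av j (c • f) = c • av j f := by
  funext x
  simp only [av, Pi.smul_apply, smul_eq_mul, mul_sum]
  refine sum_congr rfl fun a _ => ?_
  ring

lemma av_sub (j : Fin N) (f g : St N M → ℂ) : av j (f - g) = av j f - av j g := by
  funext x
  simp only [av, Pi.sub_apply, mul_sub, sum_sub_distrib]

lemma av_fsum (j : Fin N) (s : Finset (Fin N)) (F : Fin N → St N M → ℂ) :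
    av j (∑ i ∈ s, F i) = ∑ i ∈ s, av j (F i) := by
  funext x
  simp only [av, Finset.sum_apply, mul_sum]
  rw [sum_comm]

/-- invariance under all averagings forces a function to be constant -/
lemma const_of_av {f : St N M → ℂ} (h : ∀ j, av j f = f) (x y : St N M) : f x = f y := by
  have h1 : ∀ (j : Fin N) (x : St N M) (a : ZMod M), f (Function.update x j a) = f x := by
    intro j x a
    rw [← congrFun (h j) (Function.update x j a), ← congrFun (h j) x]
    unfold av
    simp only [Function.update_idem]
  have h2 : ∀ s : Finset (Fin N), f (s.piecewise y x) = f x := by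
    intro s
    induction s using Finset.induction_on with
    | empty => rw [piecewise_empty]
    | insert j s hj ih => rw [piecewise_insert, h1, ih]
  rw [← h2 univ, piecewise_univ]

lemma eig_aux {f : St N M → ℂ} {μ : ℂ} (hf : f ≠ 0) (hs : ∑ x, f x = 0)
    (he : ∑ j, (f - av j f) = μ • f) (s : Finset (Fin N)) :
    ∃ g : St N M → ℂ, g ≠ 0 ∧ ∑ x, g x = 0 ∧ ∑ j, (g - av j g) = μ • g ∧
      ∀ j ∈ s, av j g = 0 ∨ av j g = g := by
  induction s using Finset.induction_on with
  | empty => exact ⟨f, hf, hs, he, fun j hj => absurd hj (notMem_empty j)⟩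
  | insert i s hi ih =>
    obtain ⟨g, h1, h2, h3, h4⟩ := ih
    by_cases h : av i g = 0
    · refine ⟨g, h1, h2, h3, fun j hj => ?_⟩
      rcases mem_insert.mp hj with rfl | hj
      · exact Or.inl h
      · exact h4 j hj
    · refine ⟨av i g, h, ?_, ?_, fun j hj => ?_⟩
      · rw [av_sum, h2]
      · rw [← av_smul, ← h3, av_fsum]
        refine sum_congr rfl fun j _ => ?_
        rw [av_sub, av_comm]
      · rcases mem_insert.mp hj with rfl | hj
        · exact Or.inr (av_idem _ _)
        · rw [av_comm]
          rcases h4 j hj with h5 | h5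
          · left
            rw [h5]
            funext x
            simp [av]
          · right
            rw [h5]

lemma eig_nat {f : St N M → ℂ} {μ : ℂ} (hf : f ≠ 0) (hs : ∑ x, f x = 0)
    (he : ∑ j, (f - av j f) = μ • f) : ∃ k : ℕ, 1 ≤ k ∧ μ = k := by
  obtain ⟨g, h1, h2, h3, h4⟩ := eig_aux hf hs he univ
  have h5 : ∑ j, (g - av j g) = ((univ.filter fun j => av j g = 0).card : ℂ) • g := by
    rw [card_filter]
    push_cast
    rw [sum_smul]
    refine sum_congr rfl fun j _ => ?_
    by_cases h : av j g = 0
    · rw [if_pos h, h, sub_zero, one_smul]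
    · rw [if_neg h, zero_smul]
      rcases h4 j (mem_univ j) with h6 | h6
      · exact absurd h6 h
      · rw [h6, sub_self]
  rw [h5] at h3
  have h6 : (((univ.filter fun j => av j g = 0).card : ℂ) - μ) • g = 0 := by
    rw [sub_smul, h3, sub_self]
  have h7 : ((univ.filter fun j => av j g = 0).card : ℂ) - μ = 0 := by
    rcases smul_eq_zero.mp h6 with h | h
    · exact h
    · exact absurd h h1
  refine ⟨(univ.filter fun j => av j g = 0).card, ?_, (sub_eq_zero.mp h7).symm⟩
  by_contra hc
  have h8 : (univ.filter fun j => av j g = 0).card = 0 := by omega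
  rw [card_eq_zero, filter_eq_empty_iff] at h8
  have h9 : ∀ j, av j g = g := fun j => (h4 j (mem_univ j)).resolve_left (h8 (mem_univ j))
  apply h1
  funext x
  have h10 : ∑ y, g y = (Fintype.card (St N M) : ℂ) * g x := by
    rw [sum_congr rfl fun y _ => const_of_av h9 y x, sum_const, card_univ, nsmul_eq_mul]
  rw [h2] at h10
  rcases mul_eq_zero.mp h10.symm with h | h
  · exfalso
    have : Fintype.card (St N M) ≠ 0 := Fintype.card_ne_zero
    exact this (by exact_mod_cast h)
  · exact h

/-- the generator acting on complex functions -/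
lemma gen_mulVec (r : ℝ) (f : St N M → ℂ) :
    ((gen N M r).map (fun a : ℝ => (a : ℂ))).mulVec f = fun x =>
      (∑ j, av j f x) - N * f x + r * ((1 / (M : ℂ) ^ N) * (∑ z, f z) - f x) := by
  funext x
  have e : ∀ z, ((gen N M r x z : ℝ) : ℂ) * f z =
      (∑ j, ∑ a : ZMod M, (1 / (M : ℂ)) * (if Function.update x j a = z then f z else 0)) -
      (if x = z then (N : ℂ) * f z else 0) + r * ((1 / (M : ℂ) ^ N) * f z -
        if x = z then f z else 0) := by
    intro z
    unfold gen
    push_cast
    rw [add_mul, sub_mul, sum_mul]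
    congr 1
    · congr 1
      · refine sum_congr rfl fun j _ => ?_
        rw [sum_mul]
        refine sum_congr rfl fun a _ => ?_
        split_ifs <;> push_cast <;> ring
      · split_ifs <;> push_cast <;> ring
    · split_ifs <;> push_cast <;> ring
  show ∑ z, ((gen N M r x z : ℝ) : ℂ) * f z = _
  simp_rw [e]
  rw [sum_add_distrib, sum_sub_distrib, ← mul_sum, sum_sub_distrib, ← mul_sum]
  congr 1
  · congr 1
    · rw [sum_comm]
      refine sum_congr rfl fun j _ => ?_
      rw [sum_comm]
      refine sum_congr rfl fun a _ => ?_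
      rw [← mul_sum, sum_ite_eq, if_pos (mem_univ _)]
    · rw [sum_ite_eq, if_pos (mem_univ _)]
  · rw [sum_ite_eq, if_pos (mem_univ _)]

/-- nonzero eigenvalues of `-gen` -/
lemma eigenvalue_re {r : ℝ} {z : ℂ} (hz : z ≠ 0) {f : St N M → ℂ} (hf : f ≠ 0)
    (h : (-(gen N M r).map (fun a : ℝ => (a : ℂ))).mulVec f = z • f) : 1 + r ≤ z.re := by
  rw [Matrix.neg_mulVec, gen_mulVec] at h
  have h1 : ∀ x, -((∑ j, av j f x) - N * f x + r * ((1 / (M : ℂ) ^ N) * (∑ z, f z) - f x)) =
      z * f x := fun x => congrFun h x
  have hM := Mc (M := M)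
  have hMN : (M : ℂ) ^ N ≠ 0 := pow_ne_zero _ hM
  have hs : ∑ x, f x = 0 := by
    have h2 : ∑ x, -((∑ j, av j f x) - N * f x + r * ((1 / (M : ℂ) ^ N) * (∑ z, f z) - f x)) =
        z * ∑ x, f x := by
      rw [mul_sum univ f z]
      exact sum_congr rfl fun x _ => h1 x
    have h3 : ∑ x, -((∑ j, av j f x) - N * f x + r * ((1 / (M : ℂ) ^ N) * (∑ z, f z) - f x)) =
        0 := by
      rw [sum_neg_distrib, sum_add_distrib, sum_sub_distrib, sum_comm]
      simp_rw [av_sum]
      rw [sum_const, card_univ, Fintype.card_fin, nsmul_eq_mul, ← mul_sum, sub_self, zero_add,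
        ← mul_sum, sum_sub_distrib, sum_const, card_univ, card_St, nsmul_eq_mul]
      push_cast
      field_simp
      ring
    rw [h3] at h2
    rcases mul_eq_zero.mp h2.symm with h4 | h4
    · exact absurd h4 hz
    · exact h4
  have he : ∑ j, (f - av j f) = (z - r) • f := by
    funext x
    have h2 := h1 x
    rw [hs, mul_zero, zero_sub] at h2
    simp only [Finset.sum_apply, Pi.sub_apply, Pi.smul_apply, smul_eq_mul, sum_sub_distrib,
      sum_const, card_univ, Fintype.card_fin, nsmul_eq_mul]
    linear_combination h2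
  obtain ⟨k, hk, hk2⟩ := eig_nat hf hs he
  have h5 : z = k + r := by linear_combination hk2
  rw [h5]
  have : (1 : ℝ) ≤ k := by exact_mod_cast hk
  simp
  linarith

/-- an eigenfunction for the smallest nonzero eigenvalue of `-gen` -/
lemma eigenvalue_exists (hN : 0 < N) (hM2 : 2 ≤ M) (r : ℝ) :
    ∃ f : St N M → ℂ, f ≠ 0 ∧ (-(gen N M r).map (fun a : ℝ => (a : ℂ))).mulVec f =
      ((1 + r : ℝ) : ℂ) • f := by
  have hM := Mc (M := M)
  set j₀ : Fin N := ⟨0, hN⟩
  refine ⟨fun x => (if x j₀ = 0 then 1 else 0) - 1 / (M : ℂ), ?_, ?_⟩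
  · intro h
    have h1 := congrFun h (fun _ => 0)
    simp only [if_true, Pi.zero_apply] at h1
    have h2 : (M : ℂ) = 1 := by
      field_simp at h1
      linear_combination h1
    have h3 : M = 1 := by exact_mod_cast h2
    omega
  · set f : St N M → ℂ := fun x => (if x j₀ = 0 then 1 else 0) - 1 / (M : ℂ) with hf
    have a1 : av j₀ f = 0 := by
      funext x
      unfold av
      simp only [hf, Function.update_self, Pi.zero_apply]
      rw [← mul_sum, sum_sub_distrib, sum_ite_eq', if_pos (mem_univ _), sum_const, card_univ,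
        ZMod.card, nsmul_eq_mul]
      field_simp
      ring
    have a2 : ∀ j, j ≠ j₀ → av j f = f := by
      intro j hj
      funext x
      unfold av
      simp only [hf]
      simp_rw [Function.update_of_ne hj.symm]
      rw [sum_const, card_univ, ZMod.card, nsmul_eq_mul]
      field_simp
    have hs : ∑ x, f x = 0 := by
      rw [← av_sum j₀, a1]
      simp
    rw [Matrix.neg_mulVec, gen_mulVec]
    funext x
    simp only [Pi.neg_apply, Pi.smul_apply, smul_eq_mul]
    rw [hs, ← add_sum_erase univ _ (mem_univ j₀), a1]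
    have e : ∑ j ∈ univ.erase j₀, av j f x = (N - 1 : ℂ) * f x := by
      rw [sum_congr rfl fun j hj => congrFun (a2 j (ne_of_mem_erase hj)) x, sum_const,
        card_erase_of_mem (mem_univ _), card_univ, Fintype.card_fin, nsmul_eq_mul,
        Nat.cast_sub (by omega)]
      push_cast
      ring
    rw [e]
    push_cast
    simp only [Pi.zero_apply]
    ring

end

end Pool.Agent.H96.TSC
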