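import Mathlib
import Pool.Agent.H96.TSC.Gap

set_option autoImplicit false
set_option linter.unusedSectionVars false

namespace Pool.Agent.H96.TSC

open Finset Real

/-- total variation distance: the largest difference of the masses of a set -/
noncomputable def tv {S : Type*} [Fintype S] (μ ν : S → ℝ) : ℝ :=
  ⨆ A : Finset S, |∑ y ∈ A, μ y - ∑ y ∈ A, ν y|

lemma le_tv {S : Type*} [Fintype S] (μ ν : S → ℝ) (A : Finset S) :
    |∑ y ∈ A, μ y - ∑ y ∈ A, ν y| ≤ tv μ ν :=
  le_ciSup (f := fun A : Finset S => |∑ y ∈ A, μ y - ∑ y ∈ A, ν y|)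
    (Set.finite_range _).bddAbove A

section
variable {N M : ℕ} [NeZero M]

/-- the uniform law -/
noncomputable def unif (N M : ℕ) : St N M → ℝ := fun _ => 1 / (M : ℝ) ^ N

lemma pk_nonneg {t : ℝ} (ht : 0 ≤ t) (a b : ZMod M) : 0 ≤ pk M t a b := by
  unfold pk
  have h1 : 0 ≤ exp (-t) := (exp_pos _).le
  have h2 : exp (-t) ≤ 1 := exp_le_one_iff.mpr (by linarith)
  have h3 : (0 : ℝ) < M := Mpos
  apply add_nonneg
  · apply mul_nonneg h1
    split_ifs <;> norm_num
  · exact div_nonneg (by linarith) h3.le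

lemma ker_sub (r t : ℝ) (x : St N M) (A : Finset (St N M)) :
    ∑ y ∈ A, ker N M r t x y - ∑ y ∈ A, unif N M y =
      exp (-(r * t)) * (∑ y ∈ A, (∏ j, pk M t (x j) (y j)) - ∑ y ∈ A, 1 / (M : ℝ) ^ N) := by
  rw [← sum_sub_distrib, ← sum_sub_distrib, mul_sum]
  refine sum_congr rfl fun y _ => ?_
  unfold ker unif
  ring

lemma tv_le {t : ℝ} (r : ℝ) (ht : 0 ≤ t) (x : St N M) :
    tv (ker N M r t x) (unif N M) ≤ exp (-(r * t)) := by
  apply ciSup_le
  intro A
  rw [ker_sub, abs_mul, abs_of_pos (exp_pos _)]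
  have hM : (0 : ℝ) < (M : ℝ) ^ N := pow_pos Mpos _
  have g0 : ∀ y : St N M, 0 ≤ ∏ j, pk M t (x j) (y j) := fun y =>
    prod_nonneg fun j _ => pk_nonneg ht _ _
  have g1 : ∑ y : St N M, ∏ j, pk M t (x j) (y j) = 1 := by
    rw [sum_prod_St (fun j a => pk M t (x j) a)]
    simp_rw [sum_pk_right]
    exact prod_const_one
  have u1 : ∑ y : St N M, 1 / (M : ℝ) ^ N = 1 := by
    rw [sum_const, card_univ, card_St, nsmul_eq_mul]
    push_cast
    field_simp
  have a1 : 0 ≤ ∑ y ∈ A, ∏ j, pk M t (x j) (y j) := sum_nonneg fun y _ => g0 y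
  have a2 : ∑ y ∈ A, ∏ j, pk M t (x j) (y j) ≤ 1 := by
    rw [← g1]
    exact sum_le_sum_of_subset_of_nonneg (subset_univ A) fun y _ _ => g0 y
  have a3 : 0 ≤ ∑ y ∈ A, 1 / (M : ℝ) ^ N := sum_nonneg fun y _ => by positivity
  have a4 : ∑ y ∈ A, 1 / (M : ℝ) ^ N ≤ 1 := by
    refine le_trans ?_ u1.le
    exact sum_le_sum_of_subset_of_nonneg (f := fun _ : St N M => 1 / (M : ℝ) ^ N)
      (subset_univ A) fun _ _ _ => by positivity
  have a5 : |∑ y ∈ A, (∏ j, pk M t (x j) (y j)) - ∑ y ∈ A, 1 / (M : ℝ) ^ N| ≤ 1 := by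
    rw [abs_le]
    constructor <;> linarith
  calc exp (-(r * t)) * |∑ y ∈ A, (∏ j, pk M t (x j) (y j)) - ∑ y ∈ A, 1 / (M : ℝ) ^ N|
      ≤ exp (-(r * t)) * 1 := mul_le_mul_of_nonneg_left a5 (exp_pos _).le
    _ = exp (-(r * t)) := mul_one _

lemma sum_off (t : ℝ) (x : St N M) :
    ∑ y ∈ univ.filter (fun y : St N M => ∀ j, y j ≠ x j), ∏ j, pk M t (x j) (y j) =
      ((1 - 1 / (M : ℝ)) * (1 - exp (-t))) ^ N := by
  have e : ∀ y : St N M, (if ∀ j, y j ≠ x j then ∏ j, pk M t (x j) (y j) else 0) =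
      ∏ j, (if y j ≠ x j then pk M t (x j) (y j) else 0) := by
    intro y
    by_cases h : ∀ j, y j ≠ x j
    · rw [if_pos h]
      exact prod_congr rfl fun j _ => (if_pos (h j)).symm
    · rw [if_neg h]
      push Not at h
      obtain ⟨j, hj⟩ := h
      exact (prod_eq_zero (mem_univ j) (if_neg (by simp [hj]))).symm
  rw [sum_filter]
  simp_rw [e]
  rw [sum_prod_St (fun j a => if a ≠ x j then pk M t (x j) a else 0)]
  have e2 : ∀ j, ∑ a : ZMod M, (if a ≠ x j then pk M t (x j) a else 0) =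
      (1 - 1 / (M : ℝ)) * (1 - exp (-t)) := by
    intro j
    have hM : (M : ℝ) ≠ 0 := (Mpos (M := M)).ne'
    have h1 := sum_pk_right (M := M) t (x j)
    rw [← add_sum_erase univ _ (mem_univ (x j))] at h1
    have h2 : ∑ a : ZMod M, (if a ≠ x j then pk M t (x j) a else 0) =
        ∑ a ∈ univ.erase (x j), pk M t (x j) a := by
      rw [← sum_filter]
      refine sum_congr ?_ fun _ _ => rfl
      ext a
      simp
    rw [h2]
    have h3 : pk M t (x j) (x j) = exp (-t) + (1 - exp (-t)) / M := by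
      unfold pk
      simp
    rw [h3] at h1
    have h4 : ∑ a ∈ univ.erase (x j), pk M t (x j) a = 1 - (exp (-t) + (1 - exp (-t)) / M) := by
      linarith
    rw [h4]
    field_simp
    ring
  simp_rw [e2]
  rw [prod_const, card_univ, Fintype.card_fin]

lemma sum_off_unif (x : St N M) :
    ∑ y ∈ univ.filter (fun y : St N M => ∀ j, y j ≠ x j), 1 / (M : ℝ) ^ N =
      (1 - 1 / (M : ℝ)) ^ N := by
  have e : ∀ y : St N M, (if ∀ j, y j ≠ x j then 1 / (M : ℝ) ^ N else 0) =
      ∏ j, (if y j ≠ x j then 1 / (M : ℝ) else 0) := by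
    intro y
    by_cases h : ∀ j, y j ≠ x j
    · rw [if_pos h, prod_congr rfl fun j _ => if_pos (h j), prod_const, card_univ,
        Fintype.card_fin, one_div_pow]
    · rw [if_neg h]
      push Not at h
      obtain ⟨j, hj⟩ := h
      exact (prod_eq_zero (mem_univ j) (if_neg (by simp [hj]))).symm
  rw [sum_filter]
  simp_rw [e]
  rw [sum_prod_St (fun j a => if a ≠ x j then 1 / (M : ℝ) else 0)]
  have e2 : ∀ j, ∑ a : ZMod M, (if a ≠ x j then 1 / (M : ℝ) else 0) = 1 - 1 / (M : ℝ) := by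
    intro j
    have hM : (M : ℝ) ≠ 0 := (Mpos (M := M)).ne'
    have h2 : ∑ a : ZMod M, (if a ≠ x j then 1 / (M : ℝ) else 0) =
        ∑ a ∈ univ.erase (x j), 1 / (M : ℝ) := by
      rw [← sum_filter]
      refine sum_congr ?_ fun _ _ => rfl
      ext a
      simp
    rw [h2, sum_const, card_erase_of_mem (mem_univ _), card_univ, ZMod.card, nsmul_eq_mul,
      Nat.cast_sub (NeZero.pos M)]
    push_cast
    field_simp
  simp_rw [e2]
  rw [prod_const, card_univ, Fintype.card_fin]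

lemma tv_ge {t : ℝ} (r : ℝ) (ht : 0 ≤ t) (x : St N M) :
    exp (-(r * t)) * ((1 - 1 / (M : ℝ)) ^ N * (1 - (1 - exp (-t)) ^ N)) ≤
      tv (ker N M r t x) (unif N M) := by
  refine le_trans ?_ (le_tv _ _ (univ.filter (fun y : St N M => ∀ j, y j ≠ x j)))
  rw [ker_sub, sum_off, sum_off_unif, abs_mul, abs_of_pos (exp_pos _), mul_pow]
  refine mul_le_mul_of_nonneg_left ?_ (exp_pos _).le
  rw [abs_sub_comm]
  refine le_trans (le_of_eq ?_) (le_abs_self _)
  ring

lemma ker_add (r t : ℝ) (x y z : St N M) : ker N M r t (x + z) (y + z) = ker N M r t x y := by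
  unfold ker pk
  simp only [Pi.add_apply, add_left_inj]

lemma tv_const (r t : ℝ) (x : St N M) :
    tv (ker N M r t x) (unif N M) = tv (ker N M r t 0) (unif N M) := by
  unfold tv
  have h := (Equiv.finsetCongr (Equiv.addRight x)).iSup_comp
    (g := fun A : Finset (St N M) => |∑ y ∈ A, ker N M r t x y - ∑ y ∈ A, unif N M y|)
  rw [← h]
  refine iSup_congr fun A => ?_
  simp only [Equiv.finsetCongr_apply, sum_map, Equiv.coe_toEmbedding, Equiv.coe_addRight]
  congr 2
  refine sum_congr rfl fun y _ => ?_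
  have := ker_add r t 0 y x
  rwa [zero_add] at this

end

end Pool.Agent.H96.TSC
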